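import Pool.Agent.Y883.GJ.Stm

/-!
# GJ-MAJH: the sieve model on the major arcs (helper689)
-/

set_option autoImplicit false

namespace Pool.Agent.Y689.GJ

open Finset Pool.Agent.Y883.GJ
open Pool.Agent.H807R2.Dav (ee)
open Pool.Agent.H373R2.T7 (Vz)
open Pool.Agent.Y883.T3 (lsh)

/-- a coordinate of a combination of the vectors `ev` -/
theorem coord {q : ℕ} [NeZero q] (S : Finset (DirichletCharacter ℂ q)) (η : ℝ) (N : ℕ)
    (w : ℕ → ℝ) (χ : DirichletCharacter ℂ q) :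
    (∑ n ∈ Icc 1 N, w n • ev S η n) χ =
      open Classical in if χ ∈ S then cs q N (fun n => ((w n : ℝ) : ℂ)) η χ else 0 := by
  classical
  have h1 : (∑ n ∈ Icc 1 N, w n • ev S η n) χ = ∑ n ∈ Icc 1 N, (w n • ev S η n) χ := by
    simp
  rw [h1]
  split_ifs with h
  · rw [cs]
    refine Finset.sum_congr rfl fun n _ => ?_
    have h2 : (w n • ev S η n) χ = w n • (if χ ∈ S then χ (n : ZMod q) * ee (n * η) else 0) := rfl
    rw [h2, if_pos h, Complex.real_smul, mul_assoc]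
  · refine Finset.sum_eq_zero fun n _ => ?_
    have h2 : (w n • ev S η n) χ = w n • (if χ ∈ S then χ (n : ZMod q) * ee (n * η) else 0) := rfl
    rw [h2, if_neg h, smul_zero]

theorem norm_sq_ev {q : ℕ} [NeZero q] (S : Finset (DirichletCharacter ℂ q)) (η : ℝ) (N : ℕ)
    (w : ℕ → ℝ) : ‖∑ n ∈ Icc 1 N, w n • ev S η n‖ ^ 2 =
      ∑ χ ∈ S, ‖cs q N (fun n => ((w n : ℝ) : ℂ)) η χ‖ ^ 2 := by
  classical
  rw [EuclideanSpace.norm_sq_eq, ← Finset.sum_subset (Finset.subset_univ S)]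
  · refine Finset.sum_congr rfl fun χ hχ => ?_
    rw [coord, if_pos hχ]
  · intro χ _ hχ
    rw [coord, if_neg hχ, norm_zero, zero_pow two_ne_zero]

theorem majH (h1 : TiMajStm) (h2 : LshStm) : MajHStm := by
  intro A C ρ hρ
  have hlim := (isLittleO_log_rpow_rpow_atTop (((A + C + 1 : ℕ) : ℝ))
    (show (0 : ℝ) < 6 / 25 by norm_num)).bound (show (0 : ℝ) < 1 / 8 by norm_num)
  have hlim2 := tendsto_natCast_atTop_atTop (R := ℝ) |>.eventually hlim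
  have hlog : ∀ᶠ N : ℕ in Filter.atTop, 1 ≤ Real.log (N : ℝ) :=
    (Real.tendsto_log_atTop.comp (tendsto_natCast_atTop_atTop (R := ℝ))).eventually_ge_atTop 1
  obtain ⟨N₀, hN₀⟩ := Filter.eventually_atTop.1
    (hlim2.and (hlog.and (Filter.eventually_ge_atTop 1)))
  refine ⟨N₀, fun N hN q _ hq z r hD hV η hη S hS => ?_⟩
  obtain ⟨hb, hL, hN1⟩ := hN₀ N hN
  have hNr : (1 : ℝ) ≤ N := by exact_mod_cast hN1
  have hN0 : (0 : ℝ) < N := by linarith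
  set L := Real.log (N : ℝ) with hLd
  have hL0 : 0 < L := by linarith
  -- the bound
  have hb' : 8 * L ^ (A + C + 1) ≤ (N : ℝ) ^ (6 / 25 : ℝ) := by
    rw [Real.rpow_natCast, Real.norm_of_nonneg (by positivity),
      Real.norm_of_nonneg (by positivity)] at hb
    linarith
  have hq1 : (q : ℝ) ≤ (N : ℝ) ^ (1 / 2 : ℝ) :=
    hq.trans (Real.rpow_le_rpow_of_exponent_le hNr (by linarith))
  have hsq : Real.sqrt q ≤ (N : ℝ) ^ (1 / 4 : ℝ) := by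
    have e : (N : ℝ) ^ (1 / 4 : ℝ) = Real.sqrt ((N : ℝ) ^ (1 / 2 : ℝ)) := by
      rw [Real.sqrt_eq_rpow, ← Real.rpow_mul hN0.le]
      norm_num
    rw [e]
    exact Real.sqrt_le_sqrt hq1
  have hqq : (q : ℝ) * Real.sqrt q ≤ (N : ℝ) ^ (3 / 4 : ℝ) := by
    have e : (N : ℝ) ^ (3 / 4 : ℝ) = (N : ℝ) ^ (1 / 2 : ℝ) * (N : ℝ) ^ (1 / 4 : ℝ) := by
      rw [← Real.rpow_add hN0]
      norm_num
    rw [e]
    gcongr
  obtain ⟨D, hDd⟩ : ∃ D : ℕ, D = (z + 1) ^ r := ⟨_, rfl⟩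
  rw [← hDd] at hD
  have hD1 : (D : ℝ) ≤ (N : ℝ) ^ (1 / 100 : ℝ) := by
    have e : (D : ℝ) = ((D : ℝ) ^ 100) ^ (1 / 100 : ℝ) := by
      have h3 := Real.pow_rpow_inv_natCast (Nat.cast_nonneg (α := ℝ) D) (n := 100) (by norm_num)
      push_cast at h3
      rw [one_div]
      exact h3.symm
    rw [e]
    push_cast at hD
    exact Real.rpow_le_rpow (by positivity) hD (by norm_num)
  have hηN : |η| * N ≤ L ^ C := by
    rwa [le_div_iff₀ hN0] at hη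
  obtain ⟨Y, hY⟩ : ∃ Y : ℝ, Y = q * Real.sqrt q * (1 + 7 * (|η| * N)) := ⟨_, rfl⟩
  have hY0 : 0 ≤ Y := by rw [hY]; positivity
  have hYle : Y ≤ (N : ℝ) ^ (3 / 4 : ℝ) * (8 * L ^ C) := by
    have h3 : 1 ≤ L ^ C := one_le_pow₀ hL
    rw [hY]
    have h4 : 1 + 7 * (|η| * N) ≤ 8 * L ^ C := by linarith
    gcongr
  have h5 := h2 (EuclideanSpace ℂ (DirichletCharacter ℂ q)) (fun n => ev S η n) N z r
    (fun _ => Y) (by
      intro d hd
      refine (h1 q S hS η d (N / d)).trans ?_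
      rw [hY]
      have h6 : ((d : ℝ) * ((N / d : ℕ) : ℝ)) ≤ N := by
        exact_mod_cast Nat.mul_div_le N d
      have h7 : 7 * |η| * ((d : ℝ) * ((N / d : ℕ) : ℝ)) ≤ 7 * |η| * N := by gcongr
      have h8 : 7 * |η| * (N : ℝ) = 7 * (|η| * N) := by ring
      refine mul_le_mul_of_nonneg_left ?_ (by positivity)
      linarith)
  rw [Finset.sum_const, Nat.card_Icc, Nat.add_sub_cancel, nsmul_eq_mul, ← hDd] at h5
  have h6 : ‖∑ n ∈ Icc 1 N, lsh z r n • ev S η n‖ ≤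
      L * ((N : ℝ) ^ (1 / 100 : ℝ) * ((N : ℝ) ^ (3 / 4 : ℝ) * (8 * L ^ C))) := by
    refine h5.trans ?_
    calc (Vz z)⁻¹ * (D * Y) ≤ L * (D * Y) := by gcongr
      _ ≤ _ := by gcongr
  have h7 : ‖∑ n ∈ Icc 1 N, lsh z r n • ev S η n‖ * L ^ A ≤ N := by
    calc ‖∑ n ∈ Icc 1 N, lsh z r n • ev S η n‖ * L ^ A
        ≤ L * ((N : ℝ) ^ (1 / 100 : ℝ) * ((N : ℝ) ^ (3 / 4 : ℝ) * (8 * L ^ C))) * L ^ A := by
          gcongr
      _ = (8 * L ^ (A + C + 1)) * ((N : ℝ) ^ (1 / 100 : ℝ) * (N : ℝ) ^ (3 / 4 : ℝ)) := by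
          rw [pow_add, pow_add, pow_one]
          ring
      _ ≤ (N : ℝ) ^ (6 / 25 : ℝ) * ((N : ℝ) ^ (1 / 100 : ℝ) * (N : ℝ) ^ (3 / 4 : ℝ)) := by
          gcongr
      _ = N := by
          rw [← Real.rpow_add hN0, ← Real.rpow_add hN0]
          norm_num
  have h8 := norm_sq_ev S η N (fun n => lsh z r n)
  have h9 : ∑ χ ∈ S, ‖cs q N (LS z r) η χ‖ ^ 2 = ‖∑ n ∈ Icc 1 N, lsh z r n • ev S η n‖ ^ 2 :=
    h8.symm
  rw [h9, le_div_iff₀ (by positivity)]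
  have hLA : 1 ≤ L ^ A := one_le_pow₀ hL
  calc ‖∑ n ∈ Icc 1 N, lsh z r n • ev S η n‖ ^ 2 * L ^ A
      ≤ ‖∑ n ∈ Icc 1 N, lsh z r n • ev S η n‖ ^ 2 * (L ^ A * L ^ A) := by
        gcongr
        exact le_mul_of_one_le_left (by positivity) hLA
    _ = (‖∑ n ∈ Icc 1 N, lsh z r n • ev S η n‖ * L ^ A) ^ 2 := by ring
    _ ≤ (N : ℝ) ^ 2 := by gcongr

end Pool.Agent.Y689.GJ
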